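import Pool.Agent.H29.SPL.SquareTypeProof

/-!
# The star-type of an S*-number and of its square

We construct a real number `ξ` with `0 < w*(ξ) < ∞` and `w*(ξ) ≠ w*(ξ ^ 2)`.

Sketch.  `ξ` is the limit of numbers `α_j = (T_j r_j) ^ (1 / 2 ^ (L_j))`, where `r_j` is a rational
number with denominator a power of `2`, `T_j` is a product of rational twisting factors close to
`1`, each exponent `L` is used infinitely often, and `|ξ - α_j|` is a fixed huge power of
`1 / H(α_j)`.  Since `α_j ^ 2` has the same height but half the degree, `ξ ^ 2` is much better
approximable than `ξ`, provided that no other algebraic numbers approximate `ξ` too well.  The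
latter is achieved by counting and by a descent lemma (`one_step` and `descent` in the imported
files): if all the twisted square roots `√(t θ)` are abnormally close to algebraic numbers of small
size, then, by resultants and by the linear independence of square roots inside a field of small
degree, the minimal polynomials involved are even, so that `θ` itself is abnormally close to an
algebraic number of half the degree.
-/

open Polynomial
open Pool.Agent.H93.SStar (ht one_le_ht natDegree_ne_zero_of_root ht_le_of_forall polyOf cf
  polyOf_coeff mem_box xi_exists)

namespace Pool.Agent.Results.MP_d2f903_nt.SquareType

/-- There is an `S*`-number `ξ` whose `*`-type differs from the `*`-type of `ξ ^ 2`. -/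
theorem result : ∃ ξ : ℝ, IsSStarNumber ξ ∧ starType ξ ≠ starType (ξ ^ 2) :=
  result_proof

end Pool.Agent.Results.MP_d2f903_nt.SquareType
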